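import Pool.Agent.Helper78.LM.Goals

/-!
# MP_34c247_lc, project LM, packet LIN: the sum of the errors with coefficients is computed by the control
-/

set_option autoImplicit false

namespace Pool.Agent.Helper54.LM

open Pool.Agent.Helper78.LM Pool.Agent.Helper81.CC Pool.Agent.Helper51.ZP Matrix

theorem b2z_xor (a b : Bool) : b2z (Bool.xor a b) = b2z a + b2z b := by
  revert a b; decide

theorem toVec_apply {m : ℕ} (l : List Bool) (i : Fin m) : toVec m l i = b2z (l.getD i false) := rfl

theorem toVec_nil (m : ℕ) : toVec m [] = 0 := by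
  funext i
  simp [toVec]

theorem getD_map_range (m : ℕ) (f : ℕ → Bool) {i : ℕ} (hi : i < m) :
    ((List.range m).map f).getD i false = f i := by
  rw [List.getD_eq_getElem _ _ (by simpa using hi)]
  simp

theorem toVec_mid (A : LinMachine) (x : List Bool) (t : ℕ) (a : Bool) (g : List Bool) :
    toVec (A.dim x) (mid A x t a g) =
      b2z a • toVec (A.dim x) (A.form (x, t)) + toVec (A.dim x) g := by
  funext i
  rw [toVec_apply, mid, getD_map_range _ _ i.2, b2z_xor, b2z_and]
  rfl

theorem sum_list (l : List Bool) : ∀ m : ℕ, l.length ≤ m →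
    (l.map b2z).sum = ∑ i ∈ Finset.range m, b2z (l.getD i false) := by
  induction l with
  | nil =>
    intro m _
    simp [b2z]
  | cons b l ih =>
    intro m hm
    obtain ⟨m, rfl⟩ : ∃ k, m = k + 1 := ⟨m - 1, by simp at hm; omega⟩
    rw [Finset.sum_range_succ', List.map_cons, List.sum_cons, ih m (by simpa using hm)]
    simp [add_comm]

theorem b2z_par (l : List Bool) (m : ℕ) (hm : l.length ≤ m) :
    b2z (par l) = ∑ i : Fin m, b2z (l.getD i false) := by
  rw [par_eq, b2z_z2b, sum_list l m hm, Finset.sum_range]

theorem getD_zipWith_and (h u : List Bool) (i : ℕ) :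
    (List.zipWith (fun a b => a && b) h u).getD i false = (h.getD i false && u.getD i false) := by
  induction h generalizing u i with
  | nil => simp
  | cons b h ih =>
    cases u with
    | nil => simp
    | cons e u =>
      cases i with
      | zero => simp
      | succ i => simpa using ih u i

theorem b2z_par_zip (m : ℕ) (h u : List Bool) (hm : h.length ≤ m) :
    b2z (par (List.zipWith (fun a b => a && b) h u)) = toVec m h ⬝ᵥ toVec m u := by
  rw [b2z_par _ m (by rw [List.length_zipWith]; omega), dotProduct]
  exact Finset.sum_congr rfl fun i _ => by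
    rw [getD_zipWith_and, b2z_and, toVec_apply, toVec_apply]

theorem toVec_bck (A : LinMachine) (x : List Bool) (t : ℕ) (h : List Bool) :
    toVec (A.dim x) (bck A x t h) = toVec (A.dim x) h ᵥ* A.mat x t := by
  funext j
  rw [toVec_apply, bck, getD_map_range _ _ j.2, b2z_par _ (A.dim x) (by simp), vecMul, dotProduct]
  refine Finset.sum_congr rfl fun i _ => ?_
  rw [getD_map_range _ _ i.2, b2z_and]
  rfl

theorem lin : LinStmt := by
  intro A x t c v a ps
  induction ps generalizing t c v a with
  | nil =>
    intro ha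
    have h : a = [] := List.length_eq_zero_iff.1 (by simpa using ha)
    subst h
    simp [back, mids, pi, toVec_nil, b2z]
  | cons p ps ih =>
    intro ha
    obtain ⟨a0, as, rfl⟩ : ∃ a0 as, a = a0 :: as := by
      cases a with
      | nil => simp at ha
      | cons a0 as => exact ⟨a0, as, rfl⟩
    have h1 := ih (t + 1) (cstep A x t c p) (gmem A x t c v p) as (by simpa using ha)
    have h2 : ∑ j ∈ Finset.range (p :: ps).length, b2z ((a0 :: as).getD j false) *
        (errs A x t c v (p :: ps)).getD j 0 =
        ∑ j ∈ Finset.range ps.length, b2z (as.getD j false) *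
          (errs A x (t + 1) (cstep A x t c p) (gmem A x t c v p) ps).getD j 0 +
        b2z a0 * (toVec (A.dim x) (A.form (x, t)) ⬝ᵥ gmem A x t c v p + b2z p.2) := by
      rw [List.length_cons, Finset.sum_range_succ']
      rfl
    rw [h2, h1]
    show _ = toVec (A.dim x) (bck A x t (mid A x t a0 (back A x (t + 1) as))) ⬝ᵥ v +
      b2z (Bool.xor (Bool.xor (par (List.zipWith (fun a b => a && b)
        (mid A x t a0 (back A x (t + 1) as)) (A.vec (cview x t p.1 c)))) (a0 && p.2))
        (pi A x (t + 1) (cstep A x t c p) (mids A x (t + 1) as) as ps))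
    rw [b2z_xor, b2z_xor, b2z_and, b2z_par_zip (A.dim x) _ _ (by simp [mid]), toVec_bck,
      ← dotProduct_mulVec]
    have h3 : toVec (A.dim x) (mid A x t a0 (back A x (t + 1) as)) ⬝ᵥ gmem A x t c v p =
        toVec (A.dim x) (mid A x t a0 (back A x (t + 1) as)) ⬝ᵥ (A.mat x t *ᵥ v) +
        toVec (A.dim x) (mid A x t a0 (back A x (t + 1) as)) ⬝ᵥ
          toVec (A.dim x) (A.vec (cview x t p.1 c)) := by
      rw [gmem, dotProduct_add]
    have h4 : toVec (A.dim x) (mid A x t a0 (back A x (t + 1) as)) ⬝ᵥ gmem A x t c v p =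
        b2z a0 * (toVec (A.dim x) (A.form (x, t)) ⬝ᵥ gmem A x t c v p) +
        toVec (A.dim x) (back A x (t + 1) as) ⬝ᵥ gmem A x t c v p := by
      rw [toVec_mid, add_dotProduct, smul_dotProduct, smul_eq_mul]
    linear_combination h3 - h4

end Pool.Agent.Helper54.LM
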